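import Pool.Agent.RAC963.Final

/-!
# Recognizing 1-bend and 2-bend RAC drawable graphs is NP-hard

`RAC k si` is the decision problem whether the coded graph has a `k`-bend RAC drawing (with `si`
true: one in which every edge is drawn as a chain that does not meet itself).
-/

set_option autoImplicit false

namespace Pool.Agent.Results.MP_638f75_lc.RACHard

open Pool.Agent.RAC963 Pool.Agent.NPC

/-- For `k = 1` and for `k = 2` the recognition problem of `k`-bend RAC drawable graphs is NP-hard,
whether or not the polygonal chains are required to be simple, and also if the input is restricted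
to graphs whose number of vertices is at most the length of the edge list. -/
theorem result : ∀ k : ℕ, k = 1 ∨ k = 2 → ∀ si : Prop,
    NPHardP (RAC k si) ∧ NPHardP (fun G : GCode => G.1 ≤ G.2.length ∧ RAC k si G) := by
  rintro k (rfl | rfl) si
  · exact ⟨rac1_hard si, rac1_hard' si⟩
  · exact ⟨rac2_hard si, rac2_hard' si⟩

end Pool.Agent.Results.MP_638f75_lc.RACHard
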